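import Pool.Agent.TH710.WH.Weak

/-! Weak approximation for rationally connected varieties given by nested sums of high powers. -/

set_option autoImplicit false

open Pool.Agent.W602.GT Pool.Agent.TH710.ND Pool.Agent.TH710.SP Pool.Agent.TH710.WH

namespace Pool.Agent.Results.MP_83e36b_nt.NestedWeakApproximation

/-- Let `V` be a projective variety in `P^n` over a field `k` (for instance a number field), with
generic point `y`. Suppose that over an algebraically closed field `k'` of characteristic zero
containing `k` it is an irreducible component of a projective variety given by equations which are
nested sums of few high powers of linear forms over `k'` (`L` is the function field of `V_{k'}`,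
in which `K` and `k'` are linearly disjoint over `k`). If `V_{k'}` is rationally connected, then `V`
is a linear subspace defined over `k`, and it satisfies the Hasse principle and weak
approximation. -/
theorem result {k k' : Type} [Field k] [Field k'] [IsAlgClosed k'] [CharZero k'] [Algebra k k']
    -- equations over `k'`
    {n : ℕ} (hn : 1 ≤ n) {ι : Type} {F : ι → MvPolynomial (Fin (n + 1)) k'} {s N H : ℕ}
    (hF : ∀ i, IsNested s N H (F i))
    (hN : n * ((H + 1) * (2 * s * (2 * s)) * ((2 * s + 1) *
      ((2 * s - 1) * (2 * s - 2) / 2))) + 1 ≤ N)
    -- a projective variety over `k`, and its function field over `k'`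
    {K L : Type} [Field K] [Field L] [Algebra k K] [Algebra k L] [Algebra k' L] [Algebra K L]
    [IsScalarTower k k' L] [IsScalarTower k K L] (hL : LinDisjoint k k' K L)
    {y : Fin (n + 1) → K} {w : ℕ} (hy : SubVar F L w (fun i => algebraMap K L (y i)))
    (hcomp : IsComponent F (fun i => algebraMap K L (y i)))
    (hc : RationallyConnected k' (fun i => algebraMap K L (y i))) :
    IsLinearOver k y ∧ WeakApproximation k y :=
  weak_of_connected hn hF (bnd_le hN) hL hy hcomp hc

end Pool.Agent.Results.MP_83e36b_nt.NestedWeakApproximation
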