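import Pool.Agent.TH178.WA.Multi

/-!
# Weak approximation on double covers of products of projective spaces: the closure is open

`K` is a field of characteristic zero (for instance a number field) and `L v`, `v ∈ V`, are complete
nontrivially normed fields with homomorphisms `σ v : K →+* L v` such that the diagonal map
`K → ∏ v, L v` has a dense image (for instance the completions at the places of a set `V` of places
of a number field, by the approximation theorem).

`X` is a double cover `w² = F` of a product `ℙ^{a₁} × … × ℙ^{a_r}` of projective spaces branched
along a divisor of multidegree `(2, …, 2)`, singular or not. If `X` is smooth and all `a_i ≥ 1`, then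
it is a Fano variety, hence rationally connected.

(1) If `V` is finite, then the closure of `X(K)` in `∏ v, X(L v)` contains a neighbourhood of each
of its points `(x_v)` for which all `x_v` are smooth points of `X`. In particular, this closure is
open and closed if `X` is smooth.

(2) For every `V` the closure of `X(K)` in `∏ v, X(L v)` is stable under the moves which replace one
of the `x_v` by another `L v`-point of `X` on a smooth conic through `x_v` over a coordinate line.

If the Brauer-Manin obstruction is the only one for smooth `X`, then the closure is open, because
`Br(X) / Br(K)` is finite.

Idea of the proof.  If `K`-points `y` tend to `(x_v)`, then the conics through `y` tend to the conics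
through the `x_v`, and their `K`-points are dense in their local points. The limit of the double
lines needs care. Near a smooth point any two local points are connected by a chain of such moves:
the coordinates can be changed one by one where `w ≠ 0`, and if `w = 0`, `∂F/∂x_k ≠ 0`, then one
first moves along the conic in the direction of `x_k` to a point with `w ≠ 0`.
-/

set_option autoImplicit false

namespace Pool.Agent.Results.MP_83e36b_nt.OpenClosure

open MvPolynomial Pool.Agent.TH178.MZ Pool.Agent.TH178.WA

/-- **The closure of the rational points of a double cover of a product of projective spaces,
branched along a divisor of multidegree `(2, …, 2)`, in products of completions.** -/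
theorem result (K : Type) [Field K] [CharZero K] (V : Type) [Nonempty V] (L : V → Type)
    [∀ v, NontriviallyNormedField (L v)] [∀ v, CompleteSpace (L v)] (σ : ∀ v, K →+* L v)
    (hσ : DenseRange fun (x : K) (v : V) => σ v x)
    (r : ℕ) (a : Fin r → ℕ) (F : MvPolynomial (Idx a) K) (hF : IsMultiQuadratic F)
    (x : ∀ v, Option (Idx a) → L v) (hx : ∀ v, Proper (x v)) (hxF : x ∈ Adherent σ F) :
    -- (1) the closure is open at its smooth points
    (Finite V → (∀ v, IsSmoothPoint (map (σ v) F) (x v)) →
      ∃ U ∈ nhds x, ∀ z ∈ U, (∀ v, z v ∈ cover (map (σ v) F)) → z ∈ Adherent σ F) ∧
    -- (2) the closure is stable under moves along smooth conics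
    (∀ (z : ∀ v, Option (Idx a) → L v) (v : V) (l : Idx a), (∀ v', v' ≠ v → z v' = x v') →
      Proper (z v) → z v ∈ cover (map (σ v) F) → OnSmoothConic (map (σ v) F) l (x v) (z v) →
      z ∈ Adherent σ F) := by
  classical
  refine ⟨fun hfin hs => adherent_open σ hσ hF hx hxF hs, ?_⟩
  intro z v l hzx hzP hz hzl
  have h1 := adherent_conic σ hσ hF hx hxF v l hzl.2 (z := z v) hz hzP hzl.1
  have h2 : z = Function.update x v (z v) := by
    funext v'
    by_cases h : v' = v
    · subst h
      rw [Function.update_self]
    · rw [Function.update_of_ne h, hzx v' h]
  rw [h2]
  exact h1

end Pool.Agent.Results.MP_83e36b_nt.OpenClosure
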