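import Pool.Agent.TH204.HP.H19

/-! # Weak approximation for 100% of the surfaces `y² - a z² = b t (f(t) + k)`

Let `f` be an integral polynomial of degree `d ≥ 1` and let `a`, `b` be nonzero integers. A smooth proper model `X_k` of the
surface `W_k : y² - a z² = b t (f(t) + k) ≠ 0` is a conic bundle with a degenerate fibre over the rational point `t = 0` and over
the roots of `f + k`; if `d` is even then the fibre at infinity is degenerate, too, and the quaternion algebra `(a, t)` is
unramified on `X_k`; for `f + k` irreducible and `a` not a square in the field of its root it generates `Br X_k / Br ℚ`. If `d`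
is odd then `Br X_k = Br ℚ` for such `k`.

Let `T` be any finite set of primes. We show that for 100% of the integers `k` all families of points of `W_k(ℚ_p)`, `p` in `T`,
(of bounded height and not too close to the degenerate fibres) and of a real point can be approximated by rational points of
`W_k`, to a precision fixed before `k`; at the real place we only get that `t` has the right sign. For even `d` this means that
100% of the time the class `(a, t)` takes both values at some prime outside `T`, and there is no further obstruction.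

Proof. (i) Suppose first that `T` contains the small and the bad primes and that the sum of the invariants of `(a, t)` at the
given points is `0` or that `d` is odd. Multiply the given values of `t` by squares so that they become close to an integer `c`
which is a product of primes of `T` and of one large prime `l`, by Dirichlet's theorem. The product formula for `(a, c)` shows
that `(a, c)` is trivial at `l`. We look for `t = c v²`. Then `b t (f(t) + k)` is `b c (f(c v²) + k)` up to squares,
`f(c v²) + k` is of the form considered in my `MP_d4938b_nt.AlmostAllConicBundles`, and there is a local point at `l` with `v`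
large. As there are only finitely many `c` the main theorem of the proof there applies. (This part holds for all but
`X / (log X) ^ U` of the `|k| ≤ X`; it is a result of its own, for products of conics, in `MP_e426f4_ag.ProductsOfConics`.)

(ii) If `p` is not in `T` then there is a `p`-adic point with `t = b (f(0) + k) p⁴`, and it is not too close to the degenerate
fibres unless `f(0) + k` is divisible by a high power of `p`; this allows to add the small and the bad primes to `T`. If the sum
of the invariants is not `0` then we use a prime `r`, inert in `ℚ(√a)`, which divides `f(0) + k` exactly once: there is an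
`r`-adic point with `t = r³`, and `(a, t)` does not split there. For any `δ > 0` all but `δ X` of the `k` have such a prime `r`
in a finite set, depending on `δ` only, since the sum of the reciprocals of the inert primes diverges.
-/

set_option autoImplicit false

namespace Pool.Agent.Results.MP_83e36b_nt.ShiftedWithBrauerClass

open Finset Polynomial Filter Topology

instance (p : Nat.Primes) : Fact (p : ℕ).Prime := ⟨p.2⟩

/-- the point `(t, y, z)` with coordinates in the field `F` lies on `W_k : y² - a z² = b t (f(t) + k) ≠ 0` -/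
def OnW (f : ℤ[X]) (a b k : ℤ) {F : Type} [Field F] (t y z : F) : Prop :=
  t ≠ 0 ∧ aeval t f + (k : F) ≠ 0 ∧ y ^ 2 - (a : F) * z ^ 2 = (b : F) * (t * (aeval t f + (k : F)))

/-- given points: for all `p` in `T` the point `(t, y, z)` lies on `W_k`, its coordinates have absolute value at most `p ^ N`
and `|t| ≥ p ^ (-N)`, `|f(t) + k| ≥ p ^ (-N)`; and `(tr, yr, zr)` is a real point of `W_k` -/
def Given (f : ℤ[X]) (a b : ℤ) (T : Finset Nat.Primes) (N : ℕ) (k : ℤ) (t y z : (p : Nat.Primes) → ℚ_[(p : ℕ)])
    (tr yr zr : ℝ) : Prop :=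
  (∀ p ∈ T, OnW f a b k (t p) (y p) (z p) ∧ ‖t p‖ ≤ ((p : ℕ) : ℝ) ^ N ∧ ‖y p‖ ≤ ((p : ℕ) : ℝ) ^ N ∧
    ‖z p‖ ≤ ((p : ℕ) : ℝ) ^ N ∧ (((p : ℕ) : ℝ) ^ N)⁻¹ ≤ ‖t p‖ ∧
    (((p : ℕ) : ℝ) ^ N)⁻¹ ≤ ‖aeval (t p) f + (k : ℚ_[(p : ℕ)])‖) ∧ OnW f a b k tr yr zr

/-- there is a rational point `(s, Y, Z)` of `W_k` whose coordinates are at the distance at most `p ^ (-N)` from those of the
given `p`-adic point, for all `p` in `T`, and such that `s` has the same sign as the coordinate `t` of the real point -/
def Approximated (f : ℤ[X]) (a b : ℤ) (T : Finset Nat.Primes) (N : ℕ) (k : ℤ) (t y z : (p : Nat.Primes) → ℚ_[(p : ℕ)])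
    (tr : ℝ) : Prop :=
  ∃ s Y Z : ℚ, OnW f a b k s Y Z ∧ 0 < (s : ℝ) * tr ∧
    ∀ p ∈ T, ‖(s : ℚ_[(p : ℕ)]) - t p‖ ≤ (((p : ℕ) : ℝ) ^ N)⁻¹ ∧
      ‖(Y : ℚ_[(p : ℕ)]) - y p‖ ≤ (((p : ℕ) : ℝ) ^ N)⁻¹ ∧ ‖(Z : ℚ_[(p : ℕ)]) - z p‖ ≤ (((p : ℕ) : ℝ) ^ N)⁻¹

open Classical in
theorem result (f : ℤ[X]) (hf : 1 ≤ f.natDegree) (a b : ℤ) (ha : a ≠ 0) (hb : b ≠ 0) (T : Finset Nat.Primes) (N : ℕ) :
    Tendsto (fun X : ℕ => (#{k ∈ Icc (-(X : ℤ)) X | ¬ ∀ (t y z : (p : Nat.Primes) → ℚ_[(p : ℕ)]) (tr yr zr : ℝ),
      Given f a b T N k t y z tr yr zr → Approximated f a b T N k t y z tr} : ℝ) / X) atTop (𝓝 0) := by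
  rw [Metric.tendsto_atTop]
  intro ε hε
  obtain ⟨X0, h⟩ := Pool.Agent.TH204.HP.thmC f hf a b ha hb T N (ε / 2) (by linarith)
  refine ⟨max X0 1, fun X hX => ?_⟩
  have h1 := h X ((le_max_left _ _).trans hX)
  have hX1 : (1 : ℝ) ≤ X := by exact_mod_cast (le_max_right _ _).trans hX
  rw [Real.dist_eq, sub_zero, abs_of_nonneg (by positivity), div_lt_iff₀ (by linarith)]
  have hsub : ((Icc (-(X : ℤ)) X).filter (fun k => ¬ ∀ (t y z : (p : Nat.Primes) → ℚ_[(p : ℕ)]) (tr yr zr : ℝ),
      Given f a b T N k t y z tr yr zr → Approximated f a b T N k t y z tr)) ⊆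
      ((Icc (-(X : ℤ)) X).filter (fun k => ¬ Pool.Agent.TH204.HP.WC f a b T N k)) := by
    intro k hk
    rw [mem_filter] at hk ⊢
    refine ⟨hk.1, fun hw => hk.2 ?_⟩
    intro t y z tr yr zr hg
    exact hw t y z tr yr zr hg.1 hg.2
  have h2 : (#((Icc (-(X : ℤ)) X).filter (fun k => ¬ ∀ (t y z : (p : Nat.Primes) → ℚ_[(p : ℕ)]) (tr yr zr : ℝ),
      Given f a b T N k t y z tr yr zr → Approximated f a b T N k t y z tr)) : ℝ) ≤
      (#((Icc (-(X : ℤ)) X).filter (fun k => ¬ Pool.Agent.TH204.HP.WC f a b T N k)) : ℝ) := by
    exact_mod_cast card_le_card hsub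
  refine lt_of_le_of_lt (h2.trans h1) ?_
  nlinarith

end Pool.Agent.Results.MP_83e36b_nt.ShiftedWithBrauerClass
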